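import Mathlib

set_option autoImplicit false

namespace Pool.Agent.Results.MP_2fc053_co.Unbounded

/-- `G` is a veto interval graph: vertex `a` is the veto interval `(l a, v a, r a)`. -/
def IsVI {V : Type} (G : SimpleGraph V) : Prop :=
  ∃ l v r : V → ℝ, (∀ a, l a < v a ∧ v a < r a) ∧
    Function.Injective (fun a => (l a, v a, r a)) ∧
    ∀ a b, a ≠ b → (G.Adj a b ↔
      (v a < l b ∧ l b < r a ∧ r a < v b) ∨ (v b < l a ∧ l a < r b ∧ r b < v a))

theorem IsVI.comap {V W : Type} {G : SimpleGraph V} (h : IsVI G) (f : W → V)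
    (hf : Function.Injective f) : IsVI (G.comap f) := by
  obtain ⟨l, v, r, h1, h2, h3⟩ := h
  refine ⟨l ∘ f, v ∘ f, r ∘ f, fun a => h1 (f a), fun a b e => hf (h2 e), fun a b hab => ?_⟩
  exact h3 (f a) (f b) (fun e => hab (hf e))

abbrev T (n : ℕ) := {t : Fin n × Fin n × Fin n // t.1 < t.2.1 ∧ t.2.1 < t.2.2}

noncomputable def lo {n : ℕ} (t : T n) : ℝ := (t.1.1.val : ℝ) + 1 / 3
noncomputable def mi {n : ℕ} (t : T n) : ℝ := (t.1.2.1.val : ℝ)
noncomputable def hi {n : ℕ} (t : T n) : ℝ := (t.1.2.2.val : ℝ) - 1 / 3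

def GT (n : ℕ) : SimpleGraph (T n) :=
  SimpleGraph.fromRel (fun a b => mi a < lo b ∧ lo b < hi a ∧ hi a < mi b)

theorem cast_lt {n : ℕ} {x y : Fin n} (h : x < y) : (x.val : ℝ) + 1 ≤ y.val := by
  have : x.val + 1 ≤ y.val := h
  exact_mod_cast this

theorem GT_vi (n : ℕ) : IsVI (GT n) := by
  refine ⟨lo, mi, hi, fun a => ?_, fun a b e => ?_, fun a b hab => ?_⟩
  · have h1 := cast_lt a.2.1
    have h2 := cast_lt a.2.2
    simp only [lo, mi, hi]
    constructor <;> linarith
  · simp only [lo, mi, hi, Prod.mk.injEq, add_left_inj, sub_left_inj, Nat.cast_inj] at e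
    exact Subtype.ext (Prod.ext (Fin.ext e.1) (Prod.ext (Fin.ext e.2.1) (Fin.ext e.2.2)))
  · simp only [GT, SimpleGraph.fromRel_adj, ne_eq, hab, not_false_eq_true, true_and]

theorem GT_not (k : ℕ) : ¬ (GT (2 ^ 2 ^ k + 1)).Colorable k := by
  classical
  rintro ⟨c⟩
  set n := 2 ^ 2 ^ k + 1 with hn
  let S : Fin n → Fin n → Set (Fin k) := fun y z =>
    {q | ∃ (w : Fin n) (h : y < z ∧ z < w), c ⟨(y, z, w), h⟩ = q}
  have hS : ∀ x y z : Fin n, x < y → y < z → S x y ≠ S y z := by
    intro x y z hxy hyz e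
    have m : c ⟨(x, y, z), hxy, hyz⟩ ∈ S x y := ⟨z, ⟨hxy, hyz⟩, rfl⟩
    rw [e] at m
    obtain ⟨w, h, e'⟩ := m
    refine c.valid (v := ⟨(x, y, z), hxy, hyz⟩) (w := ⟨(y, z, w), h⟩) ?_ e'.symm
    have h2 := cast_lt hyz
    simp only [GT, SimpleGraph.fromRel_adj, lo, mi, hi]
    refine ⟨fun e => ?_, Or.inl ⟨by linarith, by linarith, by linarith⟩⟩
    have := congrArg (fun t : T n => t.1.1) e
    exact absurd this hxy.ne
  let U : Fin n → Set (Set (Fin k)) := fun y => {s | ∃ z, y < z ∧ S y z = s}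
  have hU : ∀ x y : Fin n, x < y → U x ≠ U y := by
    intro x y hxy e
    have m : S x y ∈ U x := ⟨y, hxy, rfl⟩
    rw [e] at m
    obtain ⟨z, hz, e'⟩ := m
    exact hS x y z hxy hz e'.symm
  have inj : Function.Injective U := by
    intro x y e
    rcases lt_trichotomy x y with h | h | h
    · exact absurd e (hU x y h)
    · exact h
    · exact absurd e.symm (hU y x h)
  have := Fintype.card_le_of_injective U inj
  simp only [Fintype.card_fin, Fintype.card_set] at this
  omega

theorem result (k : ℕ) :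
    ∃ (n : ℕ) (G : SimpleGraph (Fin n)), IsVI G ∧ G.chromaticNumber = k := by
  classical
  rcases k with _ | k
  · refine ⟨0, ⊥, ⟨Fin.elim0, Fin.elim0, Fin.elim0, fun a => a.elim0, fun a => a.elim0,
      fun a => a.elim0⟩, ?_⟩
    simp
  have ex : ∃ m : ℕ, ∃ G : SimpleGraph (Fin m), IsVI G ∧ ¬ G.Colorable k := by
    let e := (Fintype.equivFin (T (2 ^ 2 ^ k + 1))).symm
    refine ⟨_, (GT _).comap e, (GT_vi _).comap e e.injective, fun h => GT_not k ?_⟩
    exact h.of_hom (SimpleGraph.Iso.comap e _).symm.toHom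
  obtain ⟨G, hG, hk⟩ := Nat.find_spec ex
  have hmin := fun m => Nat.find_min ex (m := m)
  generalize Nat.find ex = m at G hG hk hmin
  refine ⟨m, G, hG, ?_⟩
  rcases m with _ | m
  · exact absurd (SimpleGraph.Colorable.of_isEmpty k) hk
  have h1 : (G.comap Fin.castSucc).Colorable k := by
    by_contra h
    exact hmin m (Nat.lt_succ_self m) ⟨_, hG.comap _ (Fin.castSucc_injective m), h⟩
  obtain ⟨c⟩ := h1
  have h2 : G.Colorable (k + 1) := by
    refine ⟨SimpleGraph.Coloring.mk
      (fun a => Fin.lastCases (Fin.last k) (fun i => (c i).castSucc) a) ?_⟩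
    intro a b hab
    induction a using Fin.lastCases with
    | last =>
      induction b using Fin.lastCases with
      | last => exact absurd hab (G.loopless.irrefl _)
      | cast j =>
        simp only [Fin.lastCases_last, Fin.lastCases_castSucc]
        exact (Fin.castSucc_lt_last _).ne'
    | cast i =>
      induction b using Fin.lastCases with
      | last =>
        simp only [Fin.lastCases_last, Fin.lastCases_castSucc]
        exact (Fin.castSucc_lt_last _).ne
      | cast j =>
        simp only [Fin.lastCases_castSucc]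
        exact fun e => c.valid (v := i) (w := j) hab (Fin.castSucc_injective _ e)
  refine le_antisymm h2.chromaticNumber_le ?_
  have h3 : ¬ G.chromaticNumber ≤ k := fun h => hk (SimpleGraph.chromaticNumber_le_iff_colorable.1 h)
  push_cast
  exact Order.add_one_le_of_lt (not_le.1 h3)

end Pool.Agent.Results.MP_2fc053_co.Unbounded
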